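import Mathlib

set_option autoImplicit false

/-!
Minimal cells of a symmetric matrix mod 2 with induced `P4`s (MP_a46c6f_co, target (C), helper68's
reduction): it is enough to find dominating roots in the four classes of every `P4` of a minimal cell.
-/

namespace Pool.Agent.H28.P3

open Finset

variable {X : Type} [Fintype X] [DecidableEq X]

/-- `a - b - c - d` is an induced path -/
structure IsP4 (M : X → X → ZMod 2) (a b c d : X) : Prop where
  ab : M a b = 1
  bc : M b c = 1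
  cd : M c d = 1
  ac : M a c = 0
  ad : M a d = 0
  bd : M b d = 0
  nab : a ≠ b
  nac : a ≠ c
  nad : a ≠ d
  nbc : b ≠ c
  nbd : b ≠ d
  ncd : c ≠ d

/-- midpoints: every closed pair has a midpoint (or the zero row) -/
def PairsE (M : X → X → ZMod 2) : Prop :=
  ∀ x y, x ≠ y → M x x = M y y → M x y ≠ M x x →
    (∃ g, M g g = M x y ∧ M g x = M x y ∧ M g y = M x y ∧ ∀ w, M w x = M w y → M w g = M w x) ∨
      (M x y = 0 ∧ ∀ w, M w x = M w y → M w x = 0)

/-- `w` sees exactly `{a,b}`, `{c,d}`, `{a,c}` or `{b,d}` -/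
def Bad (M : X → X → ZMod 2) (a b c d w : X) : Prop := M w b ≠ M w c ∧ M w a ≠ M w d

/-- the columns which are constant on `a, b, c, d` -/
def Const (M : X → X → ZMod 2) (a b c d y : X) : Prop :=
  M y a = M y b ∧ M y a = M y c ∧ M y a = M y d

/-- `w` agrees with the path on the constant columns -/
def InCell (M : X → X → ZMod 2) (a b c d w : X) : Prop :=
  ∀ y, Const M a b c d y → M y w = M y a

open Classical in
/-- the non-constant columns -/
noncomputable def wid (M : X → X → ZMod 2) (a b c d : X) : Finset X :=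
  univ.filter fun y => ¬ Const M a b c d y

theorem mem_wid {M : X → X → ZMod 2} {a b c d y : X} :
    y ∈ wid M a b c d ↔ ¬ Const M a b c d y := by
  classical
  simp [wid]

/-- a minimal cell: `Y` is given by the constant columns outside `W`, and no column of `W` is constant on
a `P4` of `Y` -/
structure MinCell (M : X → X → ZMod 2) (W Y : Finset X) (f : X → ZMod 2) : Prop where
  mem : ∀ x, x ∈ Y ↔ ∀ y, y ∉ W → M y x = f y
  min : ∀ a b c d, a ∈ Y → b ∈ Y → c ∈ Y → d ∈ Y → IsP4 M a b c d → ∀ y, y ∈ W → ¬ Const M a b c d y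

theorem exists_minCell (M : X → X → ZMod 2) (h : ∃ a b c d, IsP4 M a b c d) :
    ∃ (W Y : Finset X) (f : X → ZMod 2), MinCell M W Y f ∧
      ∃ a b c d, IsP4 M a b c d ∧ a ∈ Y ∧ b ∈ Y ∧ c ∈ Y ∧ d ∈ Y := by
  classical
  set S : Finset (X × X × X × X) := univ.filter fun q => IsP4 M q.1 q.2.1 q.2.2.1 q.2.2.2 with hS
  have hne : S.Nonempty := by
    obtain ⟨a, b, c, d, hq⟩ := h
    exact ⟨(a, b, c, d), by simp [hS, hq]⟩
  obtain ⟨⟨a, b, c, d⟩, hq, hmin⟩ := exists_min_image S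
    (fun q => (wid M q.1 q.2.1 q.2.2.1 q.2.2.2).card) hne
  have hP : IsP4 M a b c d := by simpa [hS] using hq
  set Y : Finset X := univ.filter fun x => ∀ y, y ∉ wid M a b c d → M y x = M y a with hY
  have memY : ∀ x, x ∈ Y ↔ ∀ y, y ∉ wid M a b c d → M y x = M y a := by
    intro x; simp [hY]
  refine ⟨wid M a b c d, Y, fun y => M y a, ⟨memY, ?_⟩, a, b, c, d, hP, ?_, ?_, ?_, ?_⟩
  · intro a' b' c' d' ha hb hc hd hP' y hy hcon
    have hsub : wid M a' b' c' d' ⊆ wid M a b c d := by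
      intro y hy
      by_contra hn
      rw [mem_wid] at hy
      apply hy
      have e1 := (memY a').1 ha y hn
      have e2 := (memY b').1 hb y hn
      have e3 := (memY c').1 hc y hn
      have e4 := (memY d').1 hd y hn
      exact ⟨by rw [e1, e2], by rw [e1, e3], by rw [e1, e4]⟩
    have hle := hmin (a', b', c', d') (by simp [hS, hP'])
    have heq := Finset.eq_of_subset_of_card_le hsub hle
    rw [← heq, mem_wid] at hy
    exact hy hcon
  · rw [memY]; intro y _; rfl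
  · rw [memY]; intro y hy
    rw [mem_wid, not_not] at hy
    exact hy.1.symm
  · rw [memY]; intro y hy
    rw [mem_wid, not_not] at hy
    exact hy.2.1.symm
  · rw [memY]; intro y hy
    rw [mem_wid, not_not] at hy
    exact hy.2.2.symm

/-- in a cell, a vertex which agrees with a path of the cell on the constant columns lies in the cell -/
theorem MinCell.inCell {M : X → X → ZMod 2} {W Y : Finset X} {f : X → ZMod 2} (h : MinCell M W Y f)
    {a b c d w : X} (ha : a ∈ Y) (hb : b ∈ Y) (hc : c ∈ Y) (hd : d ∈ Y)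
    (hw : InCell M a b c d w) : w ∈ Y := by
  rw [h.mem]
  intro y hy
  have e1 := (h.mem a).1 ha y hy
  have e2 := (h.mem b).1 hb y hy
  have e3 := (h.mem c).1 hc y hy
  have e4 := (h.mem d).1 hd y hy
  rw [hw y ⟨by rw [e1, e2], by rw [e1, e3], by rw [e1, e4]⟩, e1]

/-- cells inherit midpoints -/
theorem MinCell.pairs {M : X → X → ZMod 2} {W Y : Finset X} {f : X → ZMod 2} (h : MinCell M W Y f)
    (hp : PairsE M) {u v : X} (hu : u ∈ Y) (hv : v ∈ Y) (huv : u ≠ v) (h1 : M u u = M v v)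
    (h2 : M u v ≠ M u u) :
    (∃ g ∈ Y, M g g = M u v ∧ M g u = M u v ∧ M g v = M u v ∧ ∀ w, M w u = M w v → M w g = M w u) ∨
      (M u v = 0 ∧ ∀ w, M w u = M w v → M w u = 0) := by
  rcases hp u v huv h1 h2 with ⟨g, g1, g2, g3, g4⟩ | h3
  · refine Or.inl ⟨g, ?_, g1, g2, g3, g4⟩
    rw [h.mem]
    intro y hy
    have e1 := (h.mem u).1 hu y hy
    have e2 := (h.mem v).1 hv y hy
    rw [g4 y (by rw [e1, e2]), e1]
  · exact Or.inr h3

/-- `r` is a vertex of the class `D` which sees nothing of `D` and whose row on `Y` is below the row of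
every vertex of `D` -/
def Low (M : X → X → ZMod 2) (Y : Finset X) (D : X → Prop) (r : X) : Prop :=
  D r ∧ (∀ x, D x → M r x = 0) ∧ ∀ d, D d → ∀ y ∈ Y, M r y = 1 → M d y = 1

/-- `r` is a vertex of the class `D` which sees everything of `D` and whose row on `Y` is above the row of
every vertex of `D` -/
def High (M : X → X → ZMod 2) (Y : Finset X) (D : X → Prop) (r : X) : Prop :=
  D r ∧ (∀ x, D x → M r x = 1) ∧ ∀ d, D d → ∀ y ∈ Y, M d y = 1 → M r y = 1

/-- the class of `d` -/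
def clD (M : X → X → ZMod 2) (Y : Finset X) (a b c : X) (x : X) : Prop :=
  x ∈ Y ∧ M x a = 0 ∧ M x b = 0 ∧ M x c = 1
/-- the class of `a` -/
def clA (M : X → X → ZMod 2) (Y : Finset X) (b c d : X) (x : X) : Prop :=
  x ∈ Y ∧ M x b = 1 ∧ M x c = 0 ∧ M x d = 0
/-- the class of `b` -/
def clB (M : X → X → ZMod 2) (Y : Finset X) (a c d : X) (x : X) : Prop :=
  x ∈ Y ∧ M x a = 1 ∧ M x c = 1 ∧ M x d = 0
/-- the class of `c` -/
def clC (M : X → X → ZMod 2) (Y : Finset X) (a b d : X) (x : X) : Prop :=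
  x ∈ Y ∧ M x a = 0 ∧ M x b = 1 ∧ M x d = 1

theorem zmod_cases (a : ZMod 2) : a = 0 ∨ a = 1 := by
  revert a; decide

open Classical in
/-- the degree inside `Y` -/
noncomputable def dg (M : X → X → ZMod 2) (Y : Finset X) (x : X) : ℕ :=
  (Y.filter fun y => M x y = 1).card

theorem dg_le {M : X → X → ZMod 2} {Y : Finset X} {r d : X}
    (h : ∀ y ∈ Y, M r y = 1 → M d y = 1) : dg M Y r ≤ dg M Y d := by
  classical
  apply card_le_card
  intro y hy
  simp only [mem_filter] at hy ⊢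
  exact ⟨hy.1, h y hy.1 hy.2⟩

theorem eq_of_dg {M : X → X → ZMod 2} {Y : Finset X} {r d : X}
    (h : ∀ y ∈ Y, M r y = 1 → M d y = 1) (hle : dg M Y d ≤ dg M Y r) :
    ∀ y ∈ Y, M r y = M d y := by
  classical
  have hsub : (Y.filter fun y => M r y = 1) ⊆ Y.filter fun y => M d y = 1 := by
    intro y hy
    simp only [mem_filter] at hy ⊢
    exact ⟨hy.1, h y hy.1 hy.2⟩
  have heq := Finset.eq_of_subset_of_card_le hsub hle
  intro y hy
  have h1 : (y ∈ Y.filter fun y => M r y = 1) ↔ (y ∈ Y.filter fun y => M d y = 1) := by rw [heq]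
  simp only [mem_filter, hy, true_and] at h1
  rcases zmod_cases (M r y) with h2 | h2
  · rcases zmod_cases (M d y) with h3 | h3
    · rw [h2, h3]
    · rw [h1.2 h3, h3]
  · rw [h2, h1.1 h2]

/-- **the descent**: dominating roots in the four classes of every `P4` of `Y` give a good `P4` of `Y` -/
theorem good_of_roots {M : X → X → ZMod 2} (hs : ∀ x y, M x y = M y x) {Y : Finset X}
    (hne : ∃ a b c d, IsP4 M a b c d ∧ a ∈ Y ∧ b ∈ Y ∧ c ∈ Y ∧ d ∈ Y)
    (hD : ∀ a b c d, IsP4 M a b c d → a ∈ Y → b ∈ Y → c ∈ Y → d ∈ Y → ∃ r, Low M Y (clD M Y a b c) r)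
    (hA : ∀ a b c d, IsP4 M a b c d → a ∈ Y → b ∈ Y → c ∈ Y → d ∈ Y → ∃ r, Low M Y (clA M Y b c d) r)
    (hB : ∀ a b c d, IsP4 M a b c d → a ∈ Y → b ∈ Y → c ∈ Y → d ∈ Y → ∃ r, High M Y (clB M Y a c d) r)
    (hC : ∀ a b c d, IsP4 M a b c d → a ∈ Y → b ∈ Y → c ∈ Y → d ∈ Y → ∃ r, High M Y (clC M Y a b d) r) :
    ∃ a b c d, IsP4 M a b c d ∧ a ∈ Y ∧ b ∈ Y ∧ c ∈ Y ∧ d ∈ Y ∧ ∀ w ∈ Y, ¬ Bad M a b c d w := by
  classical
  set S : Finset (X × X × X × X) := univ.filter fun q =>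
    IsP4 M q.1 q.2.1 q.2.2.1 q.2.2.2 ∧ q.1 ∈ Y ∧ q.2.1 ∈ Y ∧ q.2.2.1 ∈ Y ∧ q.2.2.2 ∈ Y with hS
  have hSne : S.Nonempty := by
    obtain ⟨a, b, c, d, hq⟩ := hne
    exact ⟨(a, b, c, d), by simpa [hS] using hq⟩
  obtain ⟨⟨a, b, c, d⟩, hq, hmin⟩ := exists_min_image S
    (fun q => ((dg M Y q.1 : ℤ) + dg M Y q.2.2.2 - dg M Y q.2.1 - dg M Y q.2.2.1)) hSne
  have hq' : IsP4 M a b c d ∧ a ∈ Y ∧ b ∈ Y ∧ c ∈ Y ∧ d ∈ Y := by simpa [hS] using hq
  obtain ⟨hP, ha, hb, hc, hd⟩ := hq'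
  have hmin' : ∀ a' b' c' d', IsP4 M a' b' c' d' → a' ∈ Y → b' ∈ Y → c' ∈ Y → d' ∈ Y →
      (dg M Y a : ℤ) + dg M Y d - dg M Y b - dg M Y c ≤
        (dg M Y a' : ℤ) + dg M Y d' - dg M Y b' - dg M Y c' := by
    intro a' b' c' d' h1 h2 h3 h4 h5
    exact hmin (a', b', c', d') (by simp [hS, h1, h2, h3, h4, h5])
  -- the four roots
  have rD : ∀ x, clD M Y a b c x → M d x = 0 := by
    obtain ⟨r, ⟨hrY, hra, hrb, hrc⟩, hr0, hrle⟩ := hD a b c d hP ha hb hc hd
    have hdcl : clD M Y a b c d := ⟨hd, by rw [hs]; exact hP.ad, by rw [hs]; exact hP.bd, by rw [hs]; exact hP.cd⟩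
    have hP' : IsP4 M a b c r := by
      refine ⟨hP.ab, hP.bc, by rw [hs]; exact hrc, hP.ac, by rw [hs]; exact hra, by rw [hs]; exact hrb,
        hP.nab, hP.nac, ?_, hP.nbc, ?_, ?_⟩
      · rintro rfl; rw [hP.ac] at hrc; exact zero_ne_one hrc
      · rintro rfl; have := hP.ab; rw [hs] at this; rw [this] at hra; exact one_ne_zero hra
      · rintro rfl; have := hP.bc; rw [hs] at this; rw [this] at hrb; exact one_ne_zero hrb
    have hm := hmin' a b c r hP' ha hb hc hrY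
    have hle : dg M Y d ≤ dg M Y r := by omega
    have heq := eq_of_dg (hrle d hdcl) hle
    intro x hx
    rw [← heq x hx.1]; exact hr0 x hx
  have rA : ∀ x, clA M Y b c d x → M a x = 0 := by
    obtain ⟨r, ⟨hrY, hrb, hrc, hrd⟩, hr0, hrle⟩ := hA a b c d hP ha hb hc hd
    have hacl : clA M Y b c d a := ⟨ha, hP.ab, hP.ac, hP.ad⟩
    have hP' : IsP4 M r b c d := by
      refine ⟨hrb, hP.bc, hP.cd, hrc, hrd, hP.bd, ?_, ?_, ?_, hP.nbc, hP.nbd, hP.ncd⟩
      · rintro rfl; rw [hP.bc] at hrc; exact one_ne_zero hrc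
      · rintro rfl; rw [hP.cd] at hrd; exact one_ne_zero hrd
      · rintro rfl; have := hP.bd; rw [hs] at this; rw [this] at hrb; exact zero_ne_one hrb
    have hm := hmin' r b c d hP' hrY hb hc hd
    have hle : dg M Y a ≤ dg M Y r := by omega
    have heq := eq_of_dg (hrle a hacl) hle
    intro x hx
    rw [← heq x hx.1]; exact hr0 x hx
  have rB : ∀ x, clB M Y a c d x → M b x = 1 := by
    obtain ⟨r, ⟨hrY, hra, hrc, hrd⟩, hr1, hrge⟩ := hB a b c d hP ha hb hc hd
    have hbcl : clB M Y a c d b := ⟨hb, by rw [hs]; exact hP.ab, hP.bc, hP.bd⟩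
    have hP' : IsP4 M a r c d := by
      refine ⟨by rw [hs]; exact hra, hrc, hP.cd, hP.ac, hP.ad, hrd, ?_, hP.nac, hP.nad, ?_, ?_, hP.ncd⟩
      · rintro rfl; rw [hP.ac] at hrc; exact zero_ne_one hrc
      · rintro rfl; rw [hP.cd] at hrd; exact one_ne_zero hrd
      · rintro rfl; have := hP.ad; rw [hs] at this; rw [this] at hra; exact zero_ne_one hra
    have hm := hmin' a r c d hP' ha hrY hc hd
    have hle : dg M Y r ≤ dg M Y b := by omega
    have heq := eq_of_dg (hrge b hbcl) hle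
    intro x hx
    rw [heq x hx.1]; exact hr1 x hx
  have rC : ∀ x, clC M Y a b d x → M c x = 1 := by
    obtain ⟨r, ⟨hrY, hra, hrb, hrd⟩, hr1, hrge⟩ := hC a b c d hP ha hb hc hd
    have hccl : clC M Y a b d c := ⟨hc, by rw [hs]; exact hP.ac, by rw [hs]; exact hP.bc, hP.cd⟩
    have hP' : IsP4 M a b r d := by
      refine ⟨hP.ab, by rw [hs]; exact hrb, hrd, by rw [hs]; exact hra, hP.ad, hP.bd, hP.nab, ?_, hP.nad,
        ?_, hP.nbd, ?_⟩
      · rintro rfl; rw [hP.ad] at hrd; exact zero_ne_one hrd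
      · rintro rfl; rw [hP.bd] at hrd; exact zero_ne_one hrd
      · rintro rfl; have := hP.bd; rw [hs] at this; rw [this] at hrb; exact zero_ne_one hrb
    have hm := hmin' a b r d hP' ha hb hrY hd
    have hle : dg M Y r ≤ dg M Y c := by omega
    have heq := eq_of_dg (hrge c hccl) hle
    intro x hx
    rw [heq x hx.1]; exact hr1 x hx
  refine ⟨a, b, c, d, hP, ha, hb, hc, hd, ?_⟩
  rintro w hw ⟨h1, h2⟩
  rcases zmod_cases (M w a) with wa | wa <;> rcases zmod_cases (M w b) with wb | wb <;>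
    rcases zmod_cases (M w c) with wc | wc <;> rcases zmod_cases (M w d) with wd | wd <;>
    simp only [wa, wb, wc, wd, ne_eq, not_true_eq_false, zero_ne_one, one_ne_zero, not_false_eq_true] at h1 h2
  · -- sees `c, d`
    have := rD w ⟨hw, wa, wb, wc⟩
    rw [hs, wd] at this; exact one_ne_zero this
  · -- sees `b, d`
    have := rC w ⟨hw, wa, wb, wd⟩
    rw [hs, wc] at this; exact zero_ne_one this
  · -- sees `a, c`
    have := rB w ⟨hw, wa, wc, wd⟩
    rw [hs, wb] at this; exact zero_ne_one this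
  · -- sees `a, b`
    have := rA w ⟨hw, wb, wc, wd⟩
    rw [hs, wa] at this; exact one_ne_zero this

end Pool.Agent.H28.P3
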