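import Pool.Agent.H28.P3.Root

set_option autoImplicit false

/-!
The types of the roots and the domination in a minimal cell (MP_a46c6f_co, target (C); statements (i) and
(ii) of helper68's reduction, proofs of helper65 and helper32).
-/

namespace Pool.Agent.H28.P3

open Finset

variable {X : Type} [Fintype X] [DecidableEq X]

theorem isP4_mk {M : X → X → ZMod 2} (hs : ∀ x y, M x y = M y x) {a b c d : X} (ab : M a b = 1)
    (bc : M b c = 1) (cd : M c d = 1) (ac : M a c = 0) (ad : M a d = 0) (bd : M b d = 0) :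
    IsP4 M a b c d := by
  refine ⟨ab, bc, cd, ac, ad, bd, ?_, ?_, ?_, ?_, ?_, ?_⟩
  · rintro rfl; rw [ac] at bc; exact zero_ne_one bc
  · rintro rfl; rw [ad] at cd; exact zero_ne_one cd
  · rintro rfl; rw [hs, ab] at bd; exact one_ne_zero bd
  · rintro rfl; rw [bd] at cd; exact zero_ne_one cd
  · rintro rfl; rw [ab] at ad; exact one_ne_zero ad
  · rintro rfl; rw [bc] at bd; exact one_ne_zero bd

/-- a minimal cell seen from inside -/
structure Env (M : X → X → ZMod 2) (Y : Finset X) : Prop where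
  sym : ∀ x y, M x y = M y x
  mid : MidIn M Y
  min : ∀ a b c d, a ∈ Y → b ∈ Y → c ∈ Y → d ∈ Y → IsP4 M a b c d → ∀ y ∈ Y, Const M a b c d y →
    ∀ x ∈ Y, M y x = M y a

theorem Env.cm {M : X → X → ZMod 2} {Y : Finset X} (E : Env M Y) : Env (cm M) Y := by
  refine ⟨cm_sym E.sym, E.mid.cm, ?_⟩
  intro a b c d ha hb hc hd hP y hy hcon x hx
  have hP' := IsP4.cm (cm_sym E.sym) hP
  rw [cm_cm] at hP'
  obtain ⟨h1, h2, h3⟩ := hcon
  rw [cm_inj] at h1 h2 h3
  have := E.min b d a c hb hd ha hc hP' y hy ⟨by rw [← h1, h3], by rw [h1], by rw [← h1, h2]⟩ x hx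
  rw [cm_inj, this, h1]

/-- a vertex which is not uniform on `Y` has no `P4` in its class -/
theorem Env.free {M : X → X → ZMod 2} {Y : Finset X} (E : Env M Y) {y : X} (hy : y ∈ Y)
    (h0 : ∃ x ∈ Y, M y x = 0) (h1 : ∃ x ∈ Y, M y x = 1) {D : Finset X} (hD : D ⊆ Y) {t : ZMod 2}
    (ht : ∀ x ∈ D, M y x = t) : Free M D := by
  intro a b c d ha hb hc hd hP
  have h := E.min a b c d (hD ha) (hD hb) (hD hc) (hD hd) hP y hy
    ⟨by rw [ht a ha, ht b hb], by rw [ht a ha, ht c hc], by rw [ht a ha, ht d hd]⟩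
  obtain ⟨x, hx, hx0⟩ := h0
  obtain ⟨x', hx', hx1⟩ := h1
  have e1 := h x hx
  have e2 := h x' hx'
  rw [hx0] at e1
  rw [hx1, ← e1] at e2
  exact one_ne_zero e2

theorem mid_sub {M : X → X → ZMod 2} {Y D : Finset X} (h : MidIn M Y) (hD : D ⊆ Y)
    (hc : ∀ u ∈ D, ∀ v ∈ D, ∀ g ∈ Y, (∀ w ∈ Y, M w u = M w v → M w g = M w u) → g ∈ D) : MidIn M D := by
  intro u hu v hv huv h1 h2
  obtain ⟨g, hg, g1, g2, g3, g4⟩ := h u (hD hu) v (hD hv) huv h1 h2
  exact ⟨g, hc u hu v hv g hg g4, g1, g2, g3, fun w hw => g4 w (hD hw)⟩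

/-- the neighbourhood of a non-uniform vertex has a root of type 1 -/
theorem Env.plus {M : X → X → ZMod 2} {Y : Finset X} (E : Env M Y) {y : X} (hy : y ∈ Y)
    (h0 : ∃ x ∈ Y, M y x = 0) (h1 : ∃ x ∈ Y, M y x = 1) :
    ∃ p ∈ Y, M p p = 1 ∧ M y p = 1 ∧ ∀ x ∈ Y, M y x = 1 → M p x = 1 := by
  classical
  rcases zmod_cases (M y y) with hyy | hyy
  · set N := Y.filter fun x => M y x = 1 with hN
    have memN : ∀ x, x ∈ N ↔ x ∈ Y ∧ M y x = 1 := by intro x; simp [hN]
    have hNY : N ⊆ Y := fun x hx => ((memN x).1 hx).1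
    have hne : N.Nonempty := by
      obtain ⟨x, hx, hx1⟩ := h1
      exact ⟨x, (memN x).2 ⟨hx, hx1⟩⟩
    have hfree : Free M N := E.free hy h0 h1 hNY (t := 1) fun x hx => ((memN x).1 hx).2
    have hmid : MidIn M N := by
      refine mid_sub E.mid hNY ?_
      intro u hu v hv g hg hgw
      rw [memN] at hu hv ⊢
      exact ⟨hg, by rw [hgw y hy (by rw [hu.2, hv.2]), hu.2]⟩
    obtain ⟨r, hr | hr⟩ := exists_root _ E.sym N rfl hmid hfree hne
    · exfalso
      obtain ⟨hrY, hyr⟩ := (memN r).1 hr.1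
      have hrr := hr.2 r hr.1
      have hne' : y ≠ r := by
        rintro rfl
        rw [hyy] at hyr
        exact zero_ne_one hyr
      obtain ⟨g, hg, g1, g2, g3, -⟩ := E.mid y hy r hrY hne' (by rw [hyy, hrr])
        (by rw [hyr, hyy]; exact one_ne_zero)
      rw [hyr] at g1 g2 g3
      have := hr.2 g ((memN g).2 ⟨hg, by rw [E.sym]; exact g2⟩)
      rw [E.sym, g3] at this
      exact one_ne_zero this
    · obtain ⟨hrY, hyr⟩ := (memN r).1 hr.1
      exact ⟨r, hrY, hr.2 r hr.1, hyr, fun x hx hx1 => hr.2 x ((memN x).2 ⟨hx, hx1⟩)⟩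
  · exact ⟨y, hy, hyy, hyy, fun x _ hx => hx⟩

theorem Env.minus {M : X → X → ZMod 2} {Y : Finset X} (E : Env M Y) {y : X} (hy : y ∈ Y)
    (h0 : ∃ x ∈ Y, M y x = 0) (h1 : ∃ x ∈ Y, M y x = 1) :
    ∃ p ∈ Y, M p p = 0 ∧ M y p = 0 ∧ ∀ x ∈ Y, M y x = 0 → M p x = 0 := by
  obtain ⟨p, hp, h2, h3, h4⟩ := E.cm.plus hy
    (by obtain ⟨x, hx, hx1⟩ := h1; exact ⟨x, hx, cm_eq_zero.2 hx1⟩)
    (by obtain ⟨x, hx, hx0⟩ := h0; exact ⟨x, hx, cm_eq_one.2 hx0⟩)
  exact ⟨p, hp, cm_eq_one.1 h2, cm_eq_one.1 h3, fun x hx hx0 => cm_eq_one.1 (h4 x hx (cm_eq_one.2 hx0))⟩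

/-- (i) for the vertex `d` itself -/
theorem Env.no_root1_aux {M : X → X → ZMod 2} {Y : Finset X} (E : Env M Y) {a b c d : X}
    (hP : IsP4 M a b c d) (ha : a ∈ Y) (hb : b ∈ Y) (hc : c ∈ Y) (hd : d ∈ Y)
    (hroot : ∀ x, clD M Y a b c x → M d x = 1) : False := by
  classical
  have hs := E.sym
  have da : M d a = 0 := by rw [hs]; exact hP.ad
  have db : M d b = 0 := by rw [hs]; exact hP.bd
  have dc : M d c = 1 := by rw [hs]; exact hP.cd
  have dd : M d d = 1 := hroot d ⟨hd, da, db, dc⟩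
  by_cases hz : ∃ z ∈ Y, ∀ x ∈ Y, M z x = 0
  · obtain ⟨z, hz, hz0⟩ := hz
    set B := Y.filter fun x => M a x = 1 ∧ M c x = 1 ∧ M d x = 0 with hB
    have memB : ∀ x, x ∈ B ↔ x ∈ Y ∧ M a x = 1 ∧ M c x = 1 ∧ M d x = 0 := by intro x; simp [hB]
    have hBY : B ⊆ Y := fun x hx => ((memB x).1 hx).1
    have hbB : b ∈ B := (memB b).2 ⟨hb, hP.ab, by rw [hs]; exact hP.bc, db⟩
    have hfree : Free M B := E.free ha ⟨c, hc, hP.ac⟩ ⟨b, hb, hP.ab⟩ hBY (t := 1)
      fun x hx => ((memB x).1 hx).2.1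
    have hmid : MidIn M B := by
      refine mid_sub E.mid hBY ?_
      intro u hu v hv g hg hgw
      rw [memB] at hu hv ⊢
      exact ⟨hg, by rw [hgw a ha (by rw [hu.2.1, hv.2.1]), hu.2.1],
        by rw [hgw c hc (by rw [hu.2.2.1, hv.2.2.1]), hu.2.2.1],
        by rw [hgw d hd (by rw [hu.2.2.2, hv.2.2.2]), hu.2.2.2]⟩
    obtain ⟨r, hr | hr⟩ := exists_root _ E.sym B rfl hmid hfree ⟨b, hbB⟩
    · obtain ⟨hrY, har, hcr, hdr⟩ := (memB r).1 hr.1
      have ra : M r a = 1 := by rw [hs]; exact har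
      have rc : M r c = 1 := by rw [hs]; exact hcr
      have rd : M r d = 0 := by rw [hs]; exact hdr
      obtain ⟨p, hp, pp, rp, hpx⟩ := E.plus hrY ⟨d, hd, rd⟩ ⟨a, ha, ra⟩
      have pa := hpx a ha ra
      have pc := hpx c hc rc
      have pr : M p r = 1 := by rw [hs]; exact rp
      have pd : M p d = 1 := by
        rcases zmod_cases (M p d) with h1 | h1
        · exfalso
          have := hr.2 p ((memB p).2 ⟨hp, by rw [hs]; exact pa, by rw [hs]; exact pc, by rw [hs]; exact h1⟩)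
          rw [rp] at this
          exact one_ne_zero this
        · exact h1
      have hP' : IsP4 M a r c d := isP4_mk hs har rc hP.cd hP.ac hP.ad rd
      have := E.min a r c d ha hrY hc hd hP' p hp ⟨by rw [pa, pr], by rw [pa, pc], by rw [pa, pd]⟩ z hz
      rw [pa, hs, hz0 p hp] at this
      exact zero_ne_one this
    · obtain ⟨hrY, har, hcr, hdr⟩ := (memB r).1 hr.1
      have rc : M r c = 1 := by rw [hs]; exact hcr
      have rd : M r d = 0 := by rw [hs]; exact hdr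
      have rr := hr.2 r hr.1
      have rb := hr.2 b hbB
      have hne : r ≠ d := by
        rintro rfl
        rw [rd] at dd
        exact zero_ne_one dd
      obtain ⟨g, hg, g1, g2, g3, g4⟩ := E.mid r hrY d hd hne (by rw [rr, dd])
        (by rw [rd, rr]; exact zero_ne_one)
      rw [rd] at g1 g2 g3
      have cg : M c g = 1 := by rw [g4 c hc (by rw [hcr, hP.cd]), hcr]
      have ag : M a g = 0 := by
        rcases zmod_cases (M a g) with h1 | h1
        · exact h1
        · exfalso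
          have := hr.2 g ((memB g).2 ⟨hg, h1, cg, by rw [hs]; exact g3⟩)
          rw [hs, g2] at this
          exact zero_ne_one this
      have bg : M b g = 1 := by
        rcases zmod_cases (M b g) with h1 | h1
        · exfalso
          have := hroot g ⟨hg, by rw [hs]; exact ag, by rw [hs]; exact h1, by rw [hs]; exact cg⟩
          rw [hs, g3] at this
          exact zero_ne_one this
        · exact h1
      have hP' : IsP4 M a r c g := isP4_mk hs har rc cg hP.ac ag (by rw [hs]; exact g2)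
      have ba : M b a = 1 := by rw [hs]; exact hP.ab
      have := E.min a r c g ha hrY hc hg hP' b hb
        ⟨by rw [ba, hs b r, rb], by rw [ba, hP.bc], by rw [ba, bg]⟩ d hd
      rw [ba, hP.bd] at this
      exact zero_ne_one this
  · apply hz
    obtain ⟨p, hp, pp, dp, hpx⟩ := E.minus hd ⟨a, ha, da⟩ ⟨c, hc, dc⟩
    have pa := hpx a ha da
    have pb := hpx b hb db
    have pd : M p d = 0 := by rw [hs]; exact dp
    have pc : M p c = 0 := by
      rcases zmod_cases (M p c) with h1 | h1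
      · exact h1
      · exfalso
        have := hroot p ⟨hp, pa, pb, h1⟩
        rw [dp] at this
        exact zero_ne_one this
    refine ⟨p, hp, ?_⟩
    intro x hx
    rw [E.min a b c d ha hb hc hd hP p hp ⟨by rw [pa, pb], by rw [pa, pc], by rw [pa, pd]⟩ x hx, pa]

/-- (i): the class of `d` has a root of type 0 -/
theorem Env.root0_D {M : X → X → ZMod 2} {Y : Finset X} (E : Env M Y) {a b c d : X}
    (hP : IsP4 M a b c d) (ha : a ∈ Y) (hb : b ∈ Y) (hc : c ∈ Y) (hd : d ∈ Y) :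
    ∃ r, clD M Y a b c r ∧ ∀ x, clD M Y a b c x → M r x = 0 := by
  classical
  have hs := E.sym
  set D := Y.filter fun x => M a x = 0 ∧ M b x = 0 ∧ M c x = 1 with hD
  have memD : ∀ x, x ∈ D ↔ clD M Y a b c x := by
    intro x
    simp only [hD, mem_filter, clD]
    rw [hs a x, hs b x, hs c x]
  have hDY : D ⊆ Y := fun x hx => ((memD x).1 hx).1
  have hdD : d ∈ D := (memD d).2 ⟨hd, by rw [hs]; exact hP.ad, by rw [hs]; exact hP.bd, by rw [hs]; exact hP.cd⟩
  have hfree : Free M D := E.free hc ⟨a, ha, by rw [hs]; exact hP.ac⟩ ⟨b, hb, by rw [hs]; exact hP.bc⟩ hDY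
    (t := 1) fun x hx => by rw [hs]; exact ((memD x).1 hx).2.2.2
  have hmid : MidIn M D := by
    refine mid_sub E.mid hDY ?_
    intro u hu v hv g hg hgw
    obtain ⟨-, ua, ub, uc⟩ := (memD u).1 hu
    obtain ⟨-, va, vb, vc⟩ := (memD v).1 hv
    refine (memD g).2 ⟨hg, ?_, ?_, ?_⟩
    · rw [hs, hgw a ha (by rw [hs a u, hs a v, ua, va]), hs, ua]
    · rw [hs, hgw b hb (by rw [hs b u, hs b v, ub, vb]), hs, ub]
    · rw [hs, hgw c hc (by rw [hs c u, hs c v, uc, vc]), hs, uc]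
  obtain ⟨r, hr | hr⟩ := exists_root _ E.sym D rfl hmid hfree ⟨d, hdD⟩
  · exact ⟨r, (memD r).1 hr.1, fun x hx => hr.2 x ((memD x).2 hx)⟩
  · exfalso
    obtain ⟨hrY, ra, rb, rc⟩ := (memD r).1 hr.1
    exact E.no_root1_aux (isP4_mk hs hP.ab hP.bc (by rw [hs]; exact rc) hP.ac (by rw [hs]; exact ra)
      (by rw [hs]; exact rb)) ha hb hc hrY fun x hx => hr.2 x ((memD x).2 hx)

/-- (i): the class of `c` has a root of type 1 -/
theorem Env.root1_C {M : X → X → ZMod 2} {Y : Finset X} (E : Env M Y) {a b c d : X}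
    (hP : IsP4 M a b c d) (ha : a ∈ Y) (hb : b ∈ Y) (hc : c ∈ Y) (hd : d ∈ Y) :
    ∃ r, clC M Y a b d r ∧ ∀ x, clC M Y a b d x → M r x = 1 := by
  have conv : ∀ x, clD (Pool.Agent.H28.P3.cm M) Y b d a x ↔ clC M Y a b d x := by
    intro x
    unfold clD clC
    rw [cm_eq_zero, cm_eq_zero, cm_eq_one]
    tauto
  obtain ⟨r, hr, hr'⟩ := E.cm.root0_D (hP.cm E.sym) hb hd ha hc
  exact ⟨r, (conv r).1 hr, fun x hx => cm_eq_zero.1 (hr' x ((conv x).2 hx))⟩

/-- (ii): the root of type 0 of the class of `d` is below every vertex of the class -/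
theorem Env.low_D {M : X → X → ZMod 2} {Y : Finset X} (E : Env M Y) {a b c d₀ : X}
    (hP₀ : IsP4 M a b c d₀) (ha : a ∈ Y) (hb : b ∈ Y) (hc : c ∈ Y) (hd₀ : d₀ ∈ Y) :
    ∃ r, Low M Y (clD M Y a b c) r := by
  have hs := E.sym
  obtain ⟨r, hr, hr0⟩ := E.root0_D hP₀ ha hb hc hd₀
  refine ⟨r, hr, hr0, ?_⟩
  intro d hdD y hy ry
  have rd : M r d = 0 := hr0 d hdD
  obtain ⟨hrY, ra, rb, rc⟩ := hr
  obtain ⟨hd, da, db, dc⟩ := hdD
  have ab := hP₀.ab
  have bc := hP₀.bc
  have ac := hP₀.ac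
  have ba : M b a = 1 := by rw [hs]; exact ab
  have ar : M a r = 0 := by rw [hs]; exact ra
  have br : M b r = 0 := by rw [hs]; exact rb
  have cr : M c r = 1 := by rw [hs]; exact rc
  have ad : M a d = 0 := by rw [hs]; exact da
  have bd : M b d = 0 := by rw [hs]; exact db
  have cd : M c d = 1 := by rw [hs]; exact dc
  have dr : M d r = 0 := by rw [hs]; exact rd
  have yr : M y r = 1 := by rw [hs]; exact ry
  have hP : IsP4 M a b c d := isP4_mk hs ab bc cd ac ad bd
  have hPr : IsP4 M a b c r := isP4_mk hs ab bc cr ac ar br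
  rcases zmod_cases (M d y) with h0 | h0
  swap
  · exact h0
  exfalso
  have yd : M y d = 0 := by rw [hs]; exact h0
  rcases zmod_cases (M y a) with ya | ya
  · rcases zmod_cases (M y b) with yb | yb
    · rcases zmod_cases (M y c) with yc | yc
      · -- misses `a, b, c, d`
        have := E.min a b c d ha hb hc hd hP y hy ⟨by rw [ya, yb], by rw [ya, yc], by rw [ya, yd]⟩ r hrY
        rw [yr, ya] at this
        exact one_ne_zero this
      · have := hr0 y ⟨hy, ya, yb, yc⟩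
        rw [ry] at this
        exact one_ne_zero this
    · -- `(a, b, y, r)` is a `P4` which `d` misses
      have hP' : IsP4 M a b y r := isP4_mk hs ab (by rw [hs]; exact yb) yr (by rw [hs]; exact ya) ar br
      have := E.min a b y r ha hb hy hrY hP' d hd ⟨by rw [da, db], by rw [da, h0], by rw [da, dr]⟩ c hc
      rw [dc, da] at this
      exact one_ne_zero this
  · rcases zmod_cases (M y b) with yb | yb
    · -- `(b, a, y, r)` is a `P4` which `d` misses
      have hP' : IsP4 M b a y r := isP4_mk hs ba (by rw [hs]; exact ya) yr (by rw [hs]; exact yb) br ar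
      have := E.min b a y r hb ha hy hrY hP' d hd ⟨by rw [db, da], by rw [db, h0], by rw [db, dr]⟩ c hc
      rw [dc, db] at this
      exact one_ne_zero this
    · rcases zmod_cases (M y c) with yc | yc
      · -- `(d, c, r, y)` is a `P4`
        have hP' : IsP4 M d c r y := isP4_mk hs dc cr ry dr (by rw [hs]; exact yd) (by rw [hs]; exact yc)
        obtain ⟨q, ⟨hqY, qd, qc, qy⟩, hq⟩ := E.root1_C hP' hd hc hrY hy
        have qr : M q r = 1 := hq r ⟨hrY, rd, rc, ry⟩
        have qb : M q b = 1 := hq b ⟨hb, bd, bc, by rw [hs]; exact yb⟩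
        have qa : M q a = 0 := by
          rcases zmod_cases (M q a) with h1 | h1
          · exact h1
          · exfalso
            have := E.min a b c r ha hb hc hrY hPr q hqY
              ⟨by rw [h1, qb], by rw [h1, qc], by rw [h1, qr]⟩ d hd
            rw [qd, h1] at this
            exact zero_ne_one this
        have hP2 : IsP4 M a b q r := isP4_mk hs ab (by rw [hs]; exact qb) qr (by rw [hs]; exact qa) ar br
        have := E.min a b q r ha hb hqY hrY hP2 y hy
          ⟨by rw [ya, yb], by rw [ya, hs y q, qy], by rw [ya, yr]⟩ c hc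
        rw [yc, ya] at this
        exact zero_ne_one this
      · -- sees `a, b, c, r`
        have := E.min a b c r ha hb hc hrY hPr y hy ⟨by rw [ya, yb], by rw [ya, yc], by rw [ya, yr]⟩ d hd
        rw [yd, ya] at this
        exact zero_ne_one this

theorem Env.low_A {M : X → X → ZMod 2} {Y : Finset X} (E : Env M Y) {a b c d : X}
    (hP : IsP4 M a b c d) (ha : a ∈ Y) (hb : b ∈ Y) (hc : c ∈ Y) (hd : d ∈ Y) :
    ∃ r, Low M Y (clA M Y b c d) r := by
  have conv : clD M Y d c b = clA M Y b c d := by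
    funext x
    unfold clD clA
    rw [eq_iff_iff]
    tauto
  rw [← conv]
  exact E.low_D (hP.rev E.sym) hd hc hb ha

theorem low_cm {M : X → X → ZMod 2} {Y : Finset X} {D D' : X → Prop} (hD : ∀ x, D x ↔ D' x) {r : X}
    (h : Low (cm M) Y D r) : High M Y D' r := by
  obtain ⟨h1, h2, h3⟩ := h
  refine ⟨(hD r).1 h1, fun x hx => cm_eq_zero.1 (h2 x ((hD x).2 hx)), ?_⟩
  intro d hd y hy hdy
  rcases zmod_cases (M r y) with h4 | h4
  · exfalso
    have := h3 d ((hD d).2 hd) y hy (cm_eq_one.2 h4)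
    rw [cm_eq_one, hdy] at this
    exact one_ne_zero this
  · exact h4

theorem Env.high_C {M : X → X → ZMod 2} {Y : Finset X} (E : Env M Y) {a b c d : X}
    (hP : IsP4 M a b c d) (ha : a ∈ Y) (hb : b ∈ Y) (hc : c ∈ Y) (hd : d ∈ Y) :
    ∃ r, High M Y (clC M Y a b d) r := by
  obtain ⟨r, hr⟩ := E.cm.low_D (hP.cm E.sym) hb hd ha hc
  refine ⟨r, low_cm ?_ hr⟩
  intro x
  unfold clD clC
  rw [cm_eq_zero, cm_eq_zero, cm_eq_one]
  tauto

theorem Env.high_B {M : X → X → ZMod 2} {Y : Finset X} (E : Env M Y) {a b c d : X}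
    (hP : IsP4 M a b c d) (ha : a ∈ Y) (hb : b ∈ Y) (hc : c ∈ Y) (hd : d ∈ Y) :
    ∃ r, High M Y (clB M Y a c d) r := by
  obtain ⟨r, hr⟩ := E.high_C (hP.rev E.sym) hd hc hb ha
  refine ⟨r, ?_⟩
  have conv : clC M Y d c a = clB M Y a c d := by
    funext x
    unfold clC clB
    rw [eq_iff_iff]
    tauto
  rw [← conv]
  exact hr

/-- a minimal cell contains a good `P4` -/
theorem Env.good {M : X → X → ZMod 2} {Y : Finset X} (E : Env M Y)
    (hne : ∃ a b c d, IsP4 M a b c d ∧ a ∈ Y ∧ b ∈ Y ∧ c ∈ Y ∧ d ∈ Y) :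
    ∃ a b c d, IsP4 M a b c d ∧ a ∈ Y ∧ b ∈ Y ∧ c ∈ Y ∧ d ∈ Y ∧ ∀ w ∈ Y, ¬ Bad M a b c d w :=
  good_of_roots E.sym hne (fun _ _ _ _ hP ha hb hc hd => E.low_D hP ha hb hc hd)
    (fun _ _ _ _ hP ha hb hc hd => E.low_A hP ha hb hc hd)
    (fun _ _ _ _ hP ha hb hc hd => E.high_B hP ha hb hc hd)
    (fun _ _ _ _ hP ha hb hc hd => E.high_C hP ha hb hc hd)

/-- midpoints in the strict sense -/
def PairsS (M : X → X → ZMod 2) : Prop :=
  ∀ x y, x ≠ y → M x x = M y y → M x y ≠ M x x →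
    ∃ g, M g g = M x y ∧ M g x = M x y ∧ M g y = M x y ∧ ∀ w, M w x = M w y → M w g = M w x

/-- **the good path**, strict midpoints -/
theorem exists_good_strict {M : X → X → ZMod 2} (hs : ∀ x y, M x y = M y x) (hp : PairsS M)
    (h : ∃ a b c d, IsP4 M a b c d) :
    ∃ a b c d, IsP4 M a b c d ∧ ∀ w, InCell M a b c d w → ¬ Bad M a b c d w := by
  obtain ⟨W, Y, f, hY, hne⟩ := exists_minCell M h
  have E : Env M Y := by
    refine ⟨hs, ?_, ?_⟩
    · intro u hu v hv huv h1 h2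
      obtain ⟨g, g1, g2, g3, g4⟩ := hp u v huv h1 h2
      refine ⟨g, ?_, g1, g2, g3, fun w _ => g4 w⟩
      rw [hY.mem]
      intro y hy
      have e1 := (hY.mem u).1 hu y hy
      have e2 := (hY.mem v).1 hv y hy
      rw [g4 y (by rw [e1, e2]), e1]
    · intro a b c d ha hb hc hd hP y _ hcon x hx
      have hyW : y ∉ W := fun h3 => hY.min a b c d ha hb hc hd hP y h3 hcon
      rw [(hY.mem x).1 hx y hyW, (hY.mem a).1 ha y hyW]
  obtain ⟨a, b, c, d, hP, ha, hb, hc, hd, hgood⟩ := E.good hne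
  exact ⟨a, b, c, d, hP, fun w hw => hgood w (hY.inCell ha hb hc hd hw)⟩

end Pool.Agent.H28.P3
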