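import Pool.Agent.H28.P3.Env

set_option autoImplicit false

/-!
**(P3')** (MP_a46c6f_co, target (C)): a symmetric matrix mod 2 in which every closed pair has a midpoint
(possibly the zero row) and which has an induced `P4` has an induced `P4` which is good inside its cell.
-/

namespace Pool.Agent.H28.P3

variable {X : Type} [Fintype X] [DecidableEq X]

/-- the matrix with an extra zero row -/
def optM (M : X → X → ZMod 2) : Option X → Option X → ZMod 2
  | some a, some b => M a b
  | _, _ => 0

theorem optM_none (M : X → X → ZMod 2) (x : Option X) : optM M none x = 0 := by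
  cases x <;> rfl

theorem optM_none' (M : X → X → ZMod 2) (x : Option X) : optM M x none = 0 := by
  cases x <;> rfl

theorem optM_some (M : X → X → ZMod 2) (a b : X) : optM M (some a) (some b) = M a b := rfl

theorem optM_sym {M : X → X → ZMod 2} (hs : ∀ x y, M x y = M y x) :
    ∀ x y, optM M x y = optM M y x := by
  intro x y
  cases x with
  | none => rw [optM_none, optM_none']
  | some a =>
    cases y with
    | none => rw [optM_none, optM_none']
    | some b => exact hs a b

theorem pairsS_optM {M : X → X → ZMod 2} (hp : PairsE M) : PairsS (optM M) := by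
  intro x y hxy h1 h2
  cases x with
  | none =>
    exfalso
    apply h2
    rw [optM_none, optM_none]
  | some u =>
    cases y with
    | none =>
      exfalso
      apply h2
      rw [optM_none'] at *
      exact h1.symm
    | some v =>
      rw [optM_some, optM_some] at h1
      rw [optM_some, optM_some] at h2
      have huv : u ≠ v := fun h => hxy (by rw [h])
      rcases hp u v huv h1 h2 with ⟨g, g1, g2, g3, g4⟩ | ⟨h3, h4⟩
      · refine ⟨some g, g1, g2, g3, ?_⟩
        intro w hw
        cases w with
        | none => rw [optM_none, optM_none]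
        | some w => exact g4 w hw
      · refine ⟨none, ?_, ?_, ?_, ?_⟩
        · rw [optM_none, optM_some, h3]
        · rw [optM_none, optM_some, h3]
        · rw [optM_none, optM_some, h3]
        · intro w hw
          cases w with
          | none => rw [optM_none, optM_none]
          | some w =>
            rw [optM_none', optM_some]
            exact (h4 w hw).symm

theorem isSome_left {M : X → X → ZMod 2} {x y : Option X} (h : optM M x y = 1) : ∃ a, x = some a := by
  cases x with
  | none => rw [optM_none] at h; exact absurd h zero_ne_one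
  | some a => exact ⟨a, rfl⟩

theorem isSome_right {M : X → X → ZMod 2} {x y : Option X} (h : optM M x y = 1) : ∃ a, y = some a := by
  cases y with
  | none => rw [optM_none'] at h; exact absurd h zero_ne_one
  | some a => exact ⟨a, rfl⟩

/-- **(P3')** -/
theorem exists_good {M : X → X → ZMod 2} (hs : ∀ x y, M x y = M y x) (hp : PairsE M)
    (h : ∃ a b c d, IsP4 M a b c d) :
    ∃ a b c d, IsP4 M a b c d ∧ ∀ w, InCell M a b c d w → ¬ Bad M a b c d w := by
  classical
  obtain ⟨a, b, c, d, hP⟩ := h
  have hP' : IsP4 (optM M) (some a) (some b) (some c) (some d) :=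
    isP4_mk (optM_sym hs) hP.ab hP.bc hP.cd hP.ac hP.ad hP.bd
  obtain ⟨a', b', c', d', hQ, hgood⟩ := exists_good_strict (optM_sym hs) (pairsS_optM hp) ⟨_, _, _, _, hP'⟩
  obtain ⟨a1, rfl⟩ := isSome_left hQ.ab
  obtain ⟨b1, rfl⟩ := isSome_left hQ.bc
  obtain ⟨c1, rfl⟩ := isSome_left hQ.cd
  obtain ⟨d1, rfl⟩ := isSome_right hQ.cd
  refine ⟨a1, b1, c1, d1, isP4_mk hs hQ.ab hQ.bc hQ.cd hQ.ac hQ.ad hQ.bd, ?_⟩
  intro w hw hb
  refine hgood (some w) ?_ hb
  intro y hy
  cases y with
  | none => rw [optM_none, optM_none]
  | some y => exact hw y hy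

end Pool.Agent.H28.P3
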