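import Pool.Agent.H28.P3.Cell

set_option autoImplicit false

/-!
Roots of `P4`-free classes with midpoints (MP_a46c6f_co, target (C)): a cut theorem for `P4`-free graphs
and the root lemma.
-/

namespace Pool.Agent.H28.P3

open Finset

variable {X : Type} [Fintype X] [DecidableEq X]

/-- the complement -/
def cm (M : X → X → ZMod 2) : X → X → ZMod 2 := fun x y => 1 + M x y

theorem cm_eq_zero {M : X → X → ZMod 2} {x y : X} : cm M x y = 0 ↔ M x y = 1 := by
  unfold cm
  generalize M x y = t
  revert t; decide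

theorem cm_eq_one {M : X → X → ZMod 2} {x y : X} : cm M x y = 1 ↔ M x y = 0 := by
  unfold cm
  generalize M x y = t
  revert t; decide

theorem cm_inj {M : X → X → ZMod 2} {x y x' y' : X} : cm M x y = cm M x' y' ↔ M x y = M x' y' := by
  unfold cm
  constructor
  · intro h; exact add_left_cancel h
  · intro h; rw [h]

theorem cm_sym {M : X → X → ZMod 2} (hs : ∀ x y, M x y = M y x) : ∀ x y, cm M x y = cm M y x := by
  intro x y
  unfold cm
  rw [hs]

theorem cm_cm (M : X → X → ZMod 2) : cm (cm M) = M := by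
  funext x y
  unfold cm
  rw [← add_assoc]
  have : (1 : ZMod 2) + 1 = 0 := by decide
  rw [this, zero_add]

theorem IsP4.cm {M : X → X → ZMod 2} (hs : ∀ x y, M x y = M y x) {a b c d : X} (h : IsP4 M a b c d) :
    IsP4 (cm M) b d a c := by
  refine ⟨cm_eq_one.2 h.bd, cm_eq_one.2 (by rw [hs]; exact h.ad), cm_eq_one.2 h.ac,
    cm_eq_zero.2 (by rw [hs]; exact h.ab), cm_eq_zero.2 h.bc, cm_eq_zero.2 (by rw [hs]; exact h.cd),
    h.nbd, h.nab.symm, h.nbc, h.nad.symm, h.ncd.symm, h.nac⟩

theorem IsP4.rev {M : X → X → ZMod 2} (hs : ∀ x y, M x y = M y x) {a b c d : X} (h : IsP4 M a b c d) :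
    IsP4 M d c b a := by
  refine ⟨by rw [hs]; exact h.cd, by rw [hs]; exact h.bc, by rw [hs]; exact h.ab, by rw [hs]; exact h.bd,
    by rw [hs]; exact h.ad, by rw [hs]; exact h.ac, h.ncd.symm, h.nbd.symm, h.nad.symm, h.nbc.symm,
    h.nac.symm, h.nab.symm⟩

/-- no induced `P4` inside `D` -/
def Free (M : X → X → ZMod 2) (D : Finset X) : Prop :=
  ∀ a b c d, a ∈ D → b ∈ D → c ∈ D → d ∈ D → ¬ IsP4 M a b c d

theorem Free.cm {M : X → X → ZMod 2} (hs : ∀ x y, M x y = M y x) {D : Finset X} (h : Free M D) :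
    Free (cm M) D := by
  intro a b c d ha hb hc hd hP
  have := IsP4.cm (cm_sym hs) hP
  rw [cm_cm] at this
  exact h b d a c hb hd ha hc this

theorem Free.mono {M : X → X → ZMod 2} {D D' : Finset X} (h : Free M D) (hD : D' ⊆ D) : Free M D' :=
  fun a b c d ha hb hc hd => h a b c d (hD ha) (hD hb) (hD hc) (hD hd)

/-- `A` is a proper part of `D` with all entries towards the rest of `D` equal to `t` -/
structure Cut (M : X → X → ZMod 2) (t : ZMod 2) (D A : Finset X) : Prop where
  sub : A ⊆ D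
  ne : A.Nonempty
  ne' : ∃ b ∈ D, b ∉ A
  zero : ∀ a ∈ A, ∀ b ∈ D, b ∉ A → M a b = t

theorem Cut.compl {M : X → X → ZMod 2} (hs : ∀ x y, M x y = M y x) {t : ZMod 2} {D A : Finset X}
    (h : Cut M t D A) : Cut M t D (D \ A) := by
  refine ⟨sdiff_subset, ?_, ?_, ?_⟩
  · obtain ⟨b, hb, hbA⟩ := h.ne'
    exact ⟨b, mem_sdiff.2 ⟨hb, hbA⟩⟩
  · obtain ⟨a, ha⟩ := h.ne
    exact ⟨a, h.sub ha, fun h1 => (mem_sdiff.1 h1).2 ha⟩
  · intro a ha b hb hbA
    rw [mem_sdiff] at ha hbA
    have hbA' : b ∈ A := by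
      by_contra hn
      exact hbA ⟨hb, hn⟩
    rw [hs]
    exact h.zero b hbA' a ha.1 ha.2

theorem Cut.cm {M : X → X → ZMod 2} {t : ZMod 2} {D A : Finset X} (h : Cut (cm M) t D A) :
    Cut M (1 + t) D A := by
  refine ⟨h.sub, h.ne, h.ne', ?_⟩
  intro a ha b hb hbA
  have := h.zero a ha b hb hbA
  rw [← this]
  unfold Pool.Agent.H28.P3.cm
  rw [← add_assoc]
  have h2 : (1 : ZMod 2) + 1 = 0 := by decide
  rw [h2, zero_add]

/-- one step of the cut theorem, from the side of the part that contains a non-neighbour -/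
theorem cut_step_aux {M : X → X → ZMod 2} (hs : ∀ x y, M x y = M y x) {v : X} {D A : Finset X}
    (hv : v ∉ D) (hf : Free M (insert v D)) (h : Cut M 0 D A) {x : X} (hx : x ∈ A) (hvx : M v x = 0) :
    ∃ A', Cut M 0 (insert v D) A' := by
  classical
  by_cases hB : ∃ z ∈ D, z ∉ A ∧ M v z = 1
  · obtain ⟨z, hz, hzA, hvz⟩ := hB
    refine ⟨A.filter fun y => M v y = 0, ?_, ?_, ?_, ?_⟩
    · intro y hy
      exact mem_insert_of_mem (h.sub (mem_filter.1 hy).1)
    · exact ⟨x, mem_filter.2 ⟨hx, hvx⟩⟩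
    · exact ⟨v, mem_insert_self _ _, fun h1 => hv (h.sub (mem_filter.1 h1).1)⟩
    · intro p hp q hq hqn
      obtain ⟨hpA, hvp⟩ := mem_filter.1 hp
      rcases mem_insert.1 hq with rfl | hqD
      · rw [hs]; exact hvp
      · by_cases hqA : q ∈ A
        · have hvq : M v q = 1 := by
            rcases zmod_cases (M v q) with h1 | h1
            · exact absurd (mem_filter.2 ⟨hqA, h1⟩) hqn
            · exact h1
          by_contra hne
          have hpq : M p q = 1 := by
            rcases zmod_cases (M p q) with h1 | h1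
            · exact absurd h1 hne
            · exact h1
          have hpz : M p z = 0 := h.zero p hpA z hz hzA
          have hqz : M q z = 0 := h.zero q hqA z hz hzA
          refine hf p q v z (mem_insert_of_mem (h.sub hpA)) (mem_insert_of_mem hqD)
            (mem_insert_self _ _) (mem_insert_of_mem hz) ?_
          refine ⟨hpq, by rw [hs]; exact hvq, hvz, by rw [hs]; exact hvp, hpz, hqz, ?_, ?_, ?_, ?_, ?_, ?_⟩
          · rintro rfl; rw [hvp] at hvq; exact zero_ne_one hvq
          · rintro rfl; exact hv (h.sub hpA)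
          · rintro rfl; exact hzA hpA
          · rintro rfl; exact hv hqD
          · rintro rfl; exact hzA hqA
          · rintro rfl; exact hv hz
        · exact h.zero p hpA q hqD hqA
  · push Not at hB
    refine ⟨D \ A, ?_, ?_, ?_, ?_⟩
    · exact sdiff_subset.trans (subset_insert _ _)
    · obtain ⟨b, hb, hbA⟩ := h.ne'
      exact ⟨b, mem_sdiff.2 ⟨hb, hbA⟩⟩
    · exact ⟨v, mem_insert_self _ _, fun h1 => hv (mem_sdiff.1 h1).1⟩
    · intro p hp q hq hqn
      obtain ⟨hpD, hpA⟩ := mem_sdiff.1 hp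
      rcases mem_insert.1 hq with rfl | hqD
      · rw [hs]
        rcases zmod_cases (M q p) with h1 | h1
        · exact h1
        · exact absurd h1 (hB p hpD hpA)
      · have hqA : q ∈ A := by
          by_contra hn
          exact hqn (mem_sdiff.2 ⟨hqD, hn⟩)
        rw [hs]
        exact h.zero q hqA p hpD hpA

theorem cut_step {M : X → X → ZMod 2} (hs : ∀ x y, M x y = M y x) {v : X} {D A : Finset X}
    (hv : v ∉ D) (hf : Free M (insert v D)) (h : Cut M 0 D A) :
    ∃ t A', Cut M t (insert v D) A' := by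
  classical
  by_cases hall : ∀ x ∈ D, M v x = 1
  · refine ⟨1, {v}, ?_, ⟨v, mem_singleton_self _⟩, ?_, ?_⟩
    · intro y hy
      rw [mem_singleton] at hy
      rw [hy]; exact mem_insert_self _ _
    · obtain ⟨a, ha⟩ := h.ne
      refine ⟨a, mem_insert_of_mem (h.sub ha), ?_⟩
      rw [mem_singleton]
      rintro rfl
      exact hv (h.sub ha)
    · intro p hp q hq hqn
      rw [mem_singleton] at hp hqn
      rcases mem_insert.1 hq with h1 | h1
      · exact absurd h1 hqn
      · rw [hp]; exact hall q h1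
  · push Not at hall
    obtain ⟨x, hx, hvx⟩ := hall
    have hvx' : M v x = 0 := by
      rcases zmod_cases (M v x) with h1 | h1
      · exact h1
      · exact absurd h1 hvx
    by_cases hxA : x ∈ A
    · obtain ⟨A', hA'⟩ := cut_step_aux hs hv hf h hxA hvx'
      exact ⟨0, A', hA'⟩
    · obtain ⟨A', hA'⟩ := cut_step_aux hs hv hf (h.compl hs) (mem_sdiff.2 ⟨hx, hxA⟩) hvx'
      exact ⟨0, A', hA'⟩

/-- **`P4`-free graphs have cuts** (Seinsche) -/
theorem exists_cut {M : X → X → ZMod 2} (hs : ∀ x y, M x y = M y x) (D : Finset X) :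
    2 ≤ D.card → Free M D → ∃ t A, Cut M t D A := by
  classical
  induction D using Finset.induction_on with
  | empty => intro h; simp at h
  | @insert v D hv ih =>
    intro hcard hf
    by_cases h2 : 2 ≤ D.card
    · obtain ⟨t, A, hA⟩ := ih h2 (hf.mono (subset_insert _ _))
      rcases zmod_cases t with rfl | rfl
      · exact cut_step hs hv hf hA
      · have hA' : Cut (cm M) 0 D A := by
          refine ⟨hA.sub, hA.ne, hA.ne', ?_⟩
          intro a ha b hb hbA
          exact cm_eq_zero.2 (hA.zero a ha b hb hbA)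
        obtain ⟨t', A', hA''⟩ := cut_step (cm_sym hs) hv (hf.cm hs) hA'
        exact ⟨1 + t', A', hA''.cm⟩
    · rw [card_insert_of_notMem hv] at hcard
      have h1 : D.card = 1 := by omega
      obtain ⟨w, hw⟩ := card_eq_one.1 h1
      refine ⟨M v w, {v}, ?_, ⟨v, mem_singleton_self _⟩, ?_, ?_⟩
      · intro y hy
        rw [mem_singleton] at hy
        rw [hy]; exact mem_insert_self _ _
      · refine ⟨w, mem_insert_of_mem (by rw [hw]; exact mem_singleton_self _), ?_⟩
        rw [mem_singleton]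
        rintro rfl
        exact hv (by rw [hw]; exact mem_singleton_self _)
      · intro p hp q hq hqn
        rw [mem_singleton] at hp hqn
        rcases mem_insert.1 hq with h3 | h3
        · exact absurd h3 hqn
        · rw [hw, mem_singleton] at h3
          rw [hp, h3]

/-- closed pairs of `D` have midpoints in `D` (as seen from `D`) -/
def MidIn (M : X → X → ZMod 2) (D : Finset X) : Prop :=
  ∀ u ∈ D, ∀ v ∈ D, u ≠ v → M u u = M v v → M u v ≠ M u u →
    ∃ g ∈ D, M g g = M u v ∧ M g u = M u v ∧ M g v = M u v ∧ ∀ w ∈ D, M w u = M w v → M w g = M w u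

theorem MidIn.cm {M : X → X → ZMod 2} {D : Finset X} (h : MidIn M D) : MidIn (cm M) D := by
  intro u hu v hv huv h1 h2
  rw [cm_inj] at h1
  have h2' : M u v ≠ M u u := fun h3 => h2 (cm_inj.2 h3)
  obtain ⟨g, hg, g1, g2, g3, g4⟩ := h u hu v hv huv h1 h2'
  refine ⟨g, hg, cm_inj.2 g1, cm_inj.2 g2, cm_inj.2 g3, ?_⟩
  intro w hw hwe
  rw [cm_inj] at hwe ⊢
  exact g4 w hw hwe

/-- `r` is a root of `D` of type 0 -/
def Root0 (M : X → X → ZMod 2) (D : Finset X) (r : X) : Prop := r ∈ D ∧ ∀ x ∈ D, M r x = 0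
/-- `r` is a root of `D` of type 1 -/
def Root1 (M : X → X → ZMod 2) (D : Finset X) (r : X) : Prop := r ∈ D ∧ ∀ x ∈ D, M r x = 1

/-- a part without smaller closed parts inherits midpoints -/
theorem midIn_of_min {M : X → X → ZMod 2} (hs : ∀ x y, M x y = M y x) {D A : Finset X}
    (hm : MidIn M D) (hf : Free M D) (hA : Cut M 0 D A)
    (hmin : ∀ A' ⊆ A, Cut M 0 D A' → A' = A) : MidIn M A := by
  classical
  intro u hu v hv huv h1 h2
  obtain ⟨g, hg, g1, g2, g3, g4⟩ := hm u (hA.sub hu) v (hA.sub hv) huv h1 h2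
  have hgA : g ∈ A := by
    by_contra hgn
    have hug := hA.zero u hu g hg hgn
    rw [hs] at hug
    rw [g2] at hug
    -- `u, v` non-adjacent
    have hcard : 2 ≤ A.card := by
      have : ({u, v} : Finset X) ⊆ A := by
        intro y hy
        simp only [mem_insert, mem_singleton] at hy
        rcases hy with rfl | rfl
        · exact hu
        · exact hv
      calc 2 = ({u, v} : Finset X).card := (card_pair huv).symm
        _ ≤ A.card := card_le_card this
    obtain ⟨t, B, hB⟩ := exists_cut hs A hcard (hf.mono hA.sub)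
    rcases zmod_cases t with rfl | rfl
    · -- a smaller closed part
      have hcut : Cut M 0 D B := by
        refine ⟨hB.sub.trans hA.sub, hB.ne, ?_, ?_⟩
        · obtain ⟨b, hb, hbB⟩ := hB.ne'
          exact ⟨b, hA.sub hb, hbB⟩
        · intro a ha b hb hbB
          by_cases hbA : b ∈ A
          · exact hB.zero a ha b hbA hbB
          · exact hA.zero a (hB.sub ha) b hb hbA
      have := hmin B hB.sub hcut
      obtain ⟨b, hb, hbB⟩ := hB.ne'
      exact hbB (this ▸ hb)
    · -- `u, v` on one side, a common neighbour on the other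
      have key : ∃ w ∈ A, M w u = 1 ∧ M w v = 1 := by
        by_cases huB : u ∈ B
        · by_cases hvB : v ∈ B
          · obtain ⟨b, hb, hbB⟩ := hB.ne'
            exact ⟨b, hb, by rw [hs]; exact hB.zero u huB b hb hbB,
              by rw [hs]; exact hB.zero v hvB b hb hbB⟩
          · have := hB.zero u huB v hv hvB
            rw [hug] at this
            exact absurd this zero_ne_one
        · by_cases hvB : v ∈ B
          · have := hB.zero v hvB u hu huB
            rw [hs, hug] at this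
            exact absurd this zero_ne_one
          · obtain ⟨b, hb⟩ := hB.ne
            exact ⟨b, hB.sub hb, hB.zero b hb u hu huB, hB.zero b hb v hv hvB⟩
      obtain ⟨w, hw, hwu, hwv⟩ := key
      have h3 := g4 w (hA.sub hw) (by rw [hwu, hwv])
      rw [hwu] at h3
      have h4 := hA.zero w hw g hg hgn
      rw [h3] at h4
      exact one_ne_zero h4
  exact ⟨g, hgA, g1, g2, g3, fun w hw => g4 w (hA.sub hw)⟩

theorem exists_min_cut {M : X → X → ZMod 2} {D C : Finset X} (hC : Cut M 0 D C) :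
    ∃ A ⊆ C, Cut M 0 D A ∧ ∀ A' ⊆ A, Cut M 0 D A' → A' = A := by
  classical
  obtain ⟨A, hA, hmin⟩ := exists_min_image (C.powerset.filter fun A => Cut M 0 D A) Finset.card
    ⟨C, mem_filter.2 ⟨mem_powerset.2 (Subset.refl _), hC⟩⟩
  obtain ⟨hA1, hA2⟩ := mem_filter.1 hA
  rw [mem_powerset] at hA1
  refine ⟨A, hA1, hA2, ?_⟩
  intro A' hA' hcut
  exact Finset.eq_of_subset_of_card_le hA'
    (hmin A' (mem_filter.2 ⟨mem_powerset.2 (hA'.trans hA1), hcut⟩))

/-- the root lemma when there is a cut of type 0 -/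
theorem root_of_cut {M : X → X → ZMod 2} (hs : ∀ x y, M x y = M y x) {D C : Finset X}
    (hm : MidIn M D) (hf : Free M D) (hC : Cut M 0 D C)
    (ih : ∀ A : Finset X, A.card < D.card → MidIn M A → Free M A → A.Nonempty →
      ∃ r, Root0 M A r ∨ Root1 M A r) : ∃ r, Root0 M D r ∨ Root1 M D r := by
  classical
  have part : ∀ E : Finset X, Cut M 0 D E → ∃ A ⊆ E, Cut M 0 D A ∧
      ((∃ r, Root0 M D r) ∨ ∃ r, Root1 M A r) := by
    intro E hE
    obtain ⟨A, hAE, hA, hmin⟩ := exists_min_cut hE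
    refine ⟨A, hAE, hA, ?_⟩
    have hlt : A.card < D.card := by
      apply card_lt_card
      refine ⟨hA.sub, ?_⟩
      intro h1
      obtain ⟨b, hb, hbA⟩ := hA.ne'
      exact hbA (h1 hb)
    obtain ⟨r, hr | hr⟩ := ih A hlt (midIn_of_min hs hm hf hA hmin) (hf.mono hA.sub) hA.ne
    · refine Or.inl ⟨r, hA.sub hr.1, ?_⟩
      intro x hx
      by_cases hxA : x ∈ A
      · exact hr.2 x hxA
      · exact hA.zero r hr.1 x hx hxA
    · exact Or.inr ⟨r, hr⟩
  obtain ⟨A, hAC, hA, hr | ⟨f1, h1⟩⟩ := part C hC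
  · obtain ⟨r, hr⟩ := hr
    exact ⟨r, Or.inl hr⟩
  obtain ⟨B, hBC, hB, hr | ⟨f2, h2⟩⟩ := part (D \ A) (hA.compl hs)
  · obtain ⟨r, hr⟩ := hr
    exact ⟨r, Or.inl hr⟩
  have hf2A : f2 ∉ A := (mem_sdiff.1 (hBC h2.1)).2
  have h12 : M f1 f2 = 0 := hA.zero f1 h1.1 f2 (hB.sub h2.1) hf2A
  have hne : f1 ≠ f2 := by
    rintro rfl
    exact hf2A h1.1
  have h11 := h1.2 f1 h1.1
  have h22 := h2.2 f2 h2.1
  obtain ⟨g, hg, g1, g2, g3, g4⟩ := hm f1 (hA.sub h1.1) f2 (hB.sub h2.1) hne (by rw [h11, h22])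
    (by rw [h12, h11]; exact zero_ne_one)
  rw [h12] at g1 g2 g3
  have hgA : g ∉ A := by
    intro h3
    have := h1.2 g h3
    rw [hs, g2] at this
    exact zero_ne_one this
  have hgB : g ∉ B := by
    intro h3
    have := h2.2 g h3
    rw [hs, g3] at this
    exact zero_ne_one this
  refine ⟨g, Or.inl ⟨hg, ?_⟩⟩
  intro x hx
  by_cases hxA : x ∈ A
  · rw [hs]; exact hA.zero x hxA g hg hgA
  by_cases hxB : x ∈ B
  · rw [hs]; exact hB.zero x hxB g hg hgB
  have e1 : M x f1 = 0 := by rw [hs]; exact hA.zero f1 h1.1 x hx hxA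
  have e2 : M x f2 = 0 := by rw [hs]; exact hB.zero f2 h2.1 x hx hxB
  have := g4 x hx (by rw [e1, e2])
  rw [hs, this, e1]

/-- **the root lemma** -/
theorem exists_root : ∀ (n : ℕ) {M : X → X → ZMod 2}, (∀ x y, M x y = M y x) → ∀ D : Finset X,
    D.card = n → MidIn M D → Free M D → D.Nonempty → ∃ r, Root0 M D r ∨ Root1 M D r := by
  classical
  intro n
  induction n using Nat.strong_induction_on with
  | _ n ih =>
    intro M hs D hn hm hf hne
    by_cases h2 : 2 ≤ D.card
    · obtain ⟨t, A, hA⟩ := exists_cut hs D h2 hf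
      rcases zmod_cases t with rfl | rfl
      · refine root_of_cut hs hm hf hA ?_
        intro A' hlt hm' hf' hne'
        exact ih A'.card (by rw [← hn]; exact hlt) hs A' rfl hm' hf' hne'
      · have hA' : Cut (cm M) 0 D A := by
          refine ⟨hA.sub, hA.ne, hA.ne', ?_⟩
          intro a ha b hb hbA
          exact cm_eq_zero.2 (hA.zero a ha b hb hbA)
        obtain ⟨r, hr⟩ := root_of_cut (cm_sym hs) hm.cm (hf.cm hs) hA' (by
          intro A' hlt hm' hf' hne'
          exact ih A'.card (by rw [← hn]; exact hlt) (cm_sym hs) A' rfl hm' hf' hne')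
        refine ⟨r, ?_⟩
        rcases hr with hr | hr
        · exact Or.inr ⟨hr.1, fun x hx => cm_eq_zero.1 (hr.2 x hx)⟩
        · exact Or.inl ⟨hr.1, fun x hx => cm_eq_one.1 (hr.2 x hx)⟩
    · obtain ⟨r, hr⟩ := hne
      have h1 : D.card = 1 := by
        have := card_pos.2 ⟨r, hr⟩
        omega
      obtain ⟨w, hw⟩ := card_eq_one.1 h1
      have hrw : r = w := by rw [hw, mem_singleton] at hr; exact hr
      refine ⟨r, ?_⟩
      rcases zmod_cases (M r r) with h3 | h3
      · left
        refine ⟨hr, ?_⟩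
        intro x hx
        rw [hw, mem_singleton] at hx
        rw [hx, ← hrw]; exact h3
      · right
        refine ⟨hr, ?_⟩
        intro x hx
        rw [hw, mem_singleton] at hx
        rw [hx, ← hrw]; exact h3

end Pool.Agent.H28.P3
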